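import Mathlib
import Pool.Agent.Lib.Pc848f8.Multi

open MeasureTheory Set Filter Topology
open scoped ENNReal ComplexConjugate

namespace Pool.Agent.Results.MP_c848f8_an.SliceBlowup

/-- the open polydisk `Δ^n_ρ ⊂ ℂ^n` -/
def polydisk (n : ℕ) (ρ : ℝ) : Set (Fin n → ℂ) := {x | ∀ i, ‖x i‖ < ρ}

/-- `A^n(r,1) = Δ^n \ closure Δ^n_r` -/
def shell (n : ℕ) (r : ℝ) : Set (Fin n → ℂ) := polydisk n 1 \ closure (polydisk n r)

/-- coefficient matrix, at `x`, of the form `dd^c ‖z‖² + f^* (c ω_FS)`, for `f` holomorphic with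
values in `ℂ ⊂ ℙ¹`; `ω_FS = dd^c log (1 + |ζ|²)` -/
noncomputable def metricMatrix (c : ℝ) {n : ℕ} (f : (Fin n → ℂ) → ℂ) (x : Fin n → ℂ) :
    Matrix (Fin n) (Fin n) ℂ :=
  1 + Matrix.of fun i j => (c : ℂ) *
    (fderiv ℂ f x (Pi.single i 1) * conj (fderiv ℂ f x (Pi.single j 1))) /
      (((1 + ‖f x‖ ^ 2) ^ 2 : ℝ) : ℂ)

/-- `Vol_{2n}(Γ_f ∩ (S × ℙ¹)) = ∫_S (dd^c ‖z‖² + f^* (c ω_FS))^n = n! ∫_S det` -/
noncomputable def graphVol (c : ℝ) {n : ℕ} (f : (Fin n → ℂ) → ℂ) (S : Set (Fin n → ℂ)) : ℝ≥0∞ :=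
  n.factorial * ∫⁻ x in S, ENNReal.ofReal (metricMatrix c f x).det.re

/-- the restriction `f_z` of `f` to `{z} × Δ^k` -/
def slice {m k : ℕ} (f : (Fin (m + k) → ℂ) → ℂ) (z : Fin m → ℂ) : (Fin k → ℂ) → ℂ :=
  fun w => f (Fin.append z w)

/-- a holomorphic `f : Δ^{m+k} → ℂ ⊂ ℙ¹` lies in the class `𝓕_R` (with `n = m + k`) -/
structure MemFR (m k : ℕ) (c r R : ℝ) (f : (Fin (m + k) → ℂ) → ℂ) : Prop where
  holo : DifferentiableOn ℂ f (polydisk (m + k) 1)
  vol_shell : graphVol c f (shell (m + k) r) ≤ ENNReal.ofReal R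
  vol_slice_shell : ∀ z ∈ polydisk m 1, graphVol c (slice f z) (shell k r) ≤ ENNReal.ofReal R

open Pool.Agent.Lib.Pc848f8

lemma polydisk_eq (n : ℕ) (ρ : ℝ) :
    polydisk n ρ = Set.pi univ (fun _ : Fin n => Metric.ball (0:ℂ) ρ) := by
  ext x; simp [polydisk]

lemma measurableSet_shell (n : ℕ) (r : ℝ) : MeasurableSet (shell n r) := by
  unfold shell
  rw [polydisk_eq]
  exact (MeasurableSet.univ_pi (fun _ => measurableSet_ball)).diff isClosed_closure.measurableSet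

lemma ofReal_one_add {c : ℝ} (hc : 0 < c) {A D : ℝ} (hA : 0 ≤ A) (hD : 0 < D) :
    ENNReal.ofReal (1 + c * A / D) =
      1 + ENNReal.ofReal c * (ENNReal.ofReal A * ENNReal.ofReal (1 / D)) := by
  rw [ENNReal.ofReal_add (by norm_num) (by positivity), ENNReal.ofReal_one,
    ← ENNReal.ofReal_mul hA, ← ENNReal.ofReal_mul hc.le]
  congr 2
  ring

lemma density_Fn {n : ℕ} {c : ℝ} (hc : 0 < c) (K B : ℝ) (N : ℕ) (a b : Fin n) (hab : a ≠ b)
    (x : Fin n → ℂ) (hx : ‖x a‖ < 1) :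
    ENNReal.ofReal (metricMatrix c (Fn K B N a b) x).det.re =
      1 + ENNReal.ofReal c * G K B N (x a) (x b) := by
  unfold metricMatrix
  rw [det_rank_one, sum_fderiv_Fn K B N a b hab x hx,
    ofReal_one_add hc (by positivity) (by positivity), G_eq]
  rfl

lemma graphVol_le {q : ℕ} {c : ℝ} (hc : 0 < c) {r : ℝ} (hr0 : 0 < r) (hr1 : r < 1) {N : ℕ}
    {K : ℝ} (hD : Data r N K) (S : Set (Fin (q + 1 + 1) → ℂ)) (hS : MeasurableSet S)
    (hsub : S ⊆ polydisk (q + 1 + 1) 1) :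
    graphVol c (Fn K (4 / r) N 0 (Fin.last (q + 1))) S ≤
      (q + 1 + 1).factorial * (volume S + ENNReal.ofReal c *
        (volume (Metric.ball (0:ℂ) 1) ^ q *
          ((20 * sph univ + NNReal.pi) + (NNReal.pi * sph univ + NNReal.pi)))) := by
  have h1 : ∫⁻ x in S, ENNReal.ofReal (metricMatrix c (Fn K (4 / r) N 0 (Fin.last (q + 1))) x).det.re
      = ∫⁻ x in S, (1 + ENNReal.ofReal c * G K (4 / r) N (x 0) (x (Fin.last (q + 1)))) := by
    apply setLIntegral_congr_fun hS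
    intro x hx
    exact density_Fn hc K _ N 0 (Fin.last (q + 1)) (by
      intro h
      have := congrArg Fin.val h
      simp at this) x (hsub hx 0)
  unfold graphVol
  rw [h1]
  gcongr
  exact lintegral_bound q (G K (4 / r) N) (Metric.ball 0 1) (measurable_G K (4 / r) N) _
    (total_G r hr0 hr1 N K hD) _ S (by rw [← polydisk_eq]; exact hsub)
    (lintegral_first_last q (G K (4 / r) N) _ (measurable_G K (4 / r) N))

lemma slice_Fn {q : ℕ} (K B : ℝ) (N : ℕ) (z : Fin (q + 1) → ℂ) :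
    slice (m := q + 1) (k := 1) (Fn K B N 0 (Fin.last (q + 1))) z =
      fun w : Fin 1 → ℂ => F K B N (z 0) (w 0) := by
  funext w
  unfold slice Fn
  have h1 : Fin.append z w 0 = z 0 := Fin.append_left z w 0
  have h2 : Fin.append z w (Fin.last (q + 1)) = w 0 := Fin.append_right z w 0
  rw [h1, h2]

lemma density_slice {c : ℝ} (hc : 0 < c) (K B : ℝ) (N : ℕ) (z : ℂ) (x : Fin 1 → ℂ) :
    ENNReal.ofReal (metricMatrix c (fun w : Fin 1 → ℂ => F K B N z (w 0)) x).det.re =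
      1 + ENNReal.ofReal c * ew K B N z (x 0) := by
  unfold metricMatrix
  rw [det_rank_one, Fin.sum_univ_one, fderiv_Fs,
    ofReal_one_add hc (by positivity) (by positivity)]
  rfl

lemma graphVol_slice {q : ℕ} {c : ℝ} (hc : 0 < c) (K B : ℝ) (N : ℕ) (z : Fin (q + 1) → ℂ)
    (T : Set ℂ) :
    graphVol c (slice (m := q + 1) (k := 1) (Fn K B N 0 (Fin.last (q + 1))) z)
      {x : Fin 1 → ℂ | x 0 ∈ T} = volume T + ENNReal.ofReal c * Ew K B N (z 0) T := by
  unfold graphVol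
  rw [slice_Fn, Nat.factorial_one, Nat.cast_one, one_mul,
    lintegral_congr (fun x => density_slice hc K B N (z 0) x)]
  exact lintegral_slice (ew K B N (z 0)) (measurable_ew_sec K B N (z 0)) _ T

lemma polydisk_one (ρ : ℝ) : polydisk 1 ρ = {x : Fin 1 → ℂ | x 0 ∈ Metric.ball (0:ℂ) ρ} := by
  ext x
  simp [polydisk]

lemma shell_one {r : ℝ} (hr0 : 0 < r) :
    shell 1 r = {x : Fin 1 → ℂ | x 0 ∈ {w : ℂ | r < ‖w‖ ∧ ‖w‖ < 1}} := by
  unfold shell
  rw [polydisk_eq 1 r, closure_pi_set, closure_ball _ hr0.ne']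
  ext x
  simp [polydisk, and_comm]

lemma volume_pre (T : Set ℂ) : volume {x : Fin 1 → ℂ | x 0 ∈ T} = volume T := by
  have h := (volume_preserving_funUnique (Fin 1) ℂ).measure_preimage_equiv T
  exact h

/-- the constant -/
noncomputable def CC (q : ℕ) : ℝ≥0∞ :=
  (q + 1 + 1).factorial * (volume (Metric.ball (0:ℂ) 1) ^ q *
    ((20 * sph univ + NNReal.pi) + (NNReal.pi * sph univ + NNReal.pi))) + (sph univ + 1)

lemma CC_ne_top (q : ℕ) : CC q ≠ ⊤ := by
  have h1 := sph_univ_lt_top.ne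
  have h2 : volume (Metric.ball (0:ℂ) 1) ≠ ⊤ := measure_ball_lt_top.ne
  unfold CC
  refine ENNReal.add_ne_top.mpr ⟨ENNReal.mul_ne_top (ENNReal.natCast_ne_top _)
    (ENNReal.mul_ne_top (ENNReal.pow_ne_top h2) (ENNReal.add_ne_top.mpr
      ⟨ENNReal.add_ne_top.mpr ⟨ENNReal.mul_ne_top (by norm_num) h1, ENNReal.coe_ne_top⟩,
        ENNReal.add_ne_top.mpr ⟨ENNReal.mul_ne_top ENNReal.coe_ne_top h1, ENNReal.coe_ne_top⟩⟩)),
    ENNReal.add_ne_top.mpr ⟨h1, ENNReal.one_ne_top⟩⟩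

lemma one_le_CC (q : ℕ) : 1 ≤ CC q := by
  unfold CC
  exact le_add_left (le_add_left le_rfl)

lemma le_ofReal_of {c R : ℝ} (hc : 0 < c) (m : ℕ) (V X : ℝ≥0∞) (hV : V ≠ ⊤) (hX : X ≠ ⊤)
    (h : m * V.toReal + c * X.toReal ≤ R) : m * V + ENNReal.ofReal c * X ≤ ENNReal.ofReal R := by
  refine le_trans (le_of_eq ?_) (ENNReal.ofReal_le_ofReal h)
  rw [ENNReal.ofReal_add (by positivity) (by positivity), ENNReal.ofReal_mul (by positivity),
    ENNReal.ofReal_mul hc.le, ENNReal.ofReal_toReal hV, ENNReal.ofReal_toReal hX,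
    ENNReal.ofReal_natCast]

lemma volume_polydisk_ne_top (n : ℕ) : volume (polydisk n 1) ≠ ⊤ := by
  rw [polydisk_eq, volume_pi_pi]
  exact ENNReal.prod_ne_top (fun _ _ => measure_ball_lt_top.ne)

lemma volume_shell_ne_top (n : ℕ) (r : ℝ) : volume (shell n r) ≠ ⊤ :=
  ne_top_of_le_ne_top (volume_polydisk_ne_top n) (measure_mono sdiff_subset)

theorem result (q : ℕ) : ∃ C : ℝ, 0 < C ∧ ∀ r c R : ℝ, 0 < r → r < 1 → 0 < c →
    (q + 2).factorial * (volume (shell (q + 2) r)).toReal + c * C ≤ R →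
    (volume (shell 1 r)).toReal + c * C ≤ R →
    ∃ (a : ℝ) (f : ℕ → (Fin ((q + 1) + 1) → ℂ) → ℂ) (z : ℕ → (Fin (q + 1) → ℂ)),
      0 < a ∧
      (∀ j, MemFR (q + 1) 1 c r R (f j)) ∧
      (∀ j, graphVol c (f j) (polydisk ((q + 1) + 1) 1) ≤ ENNReal.ofReal a) ∧
      (∀ j, z j ∈ polydisk (q + 1) 1) ∧
      Tendsto (fun j => graphVol c (slice (f j) (z j)) (polydisk 1 1)) atTop (𝓝 ⊤) := by
  refine ⟨(CC q).toReal, ENNReal.toReal_pos (by
    intro h
    have := one_le_CC q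
    rw [h] at this
    exact absurd this (by norm_num)) (CC_ne_top q), ?_⟩
  intro r c R hr0 hr1 hc hR1 hR2
  choose Kf hKf using fun j : ℕ => exists_data r hr0 (j + 1) (by omega)
  choose w hw1 hw2 using fun j : ℕ => exists_big_slice r hr0 hr1 (j + 1) (Kf j) (hKf j)
  have hpoly : MeasurableSet (polydisk (q + 1 + 1) 1) := by
    rw [polydisk_eq]
    exact MeasurableSet.univ_pi (fun _ => measurableSet_ball)
  have hbound : ∀ (j : ℕ) (S : Set (Fin (q + 1 + 1) → ℂ)), MeasurableSet S →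
      S ⊆ polydisk (q + 1 + 1) 1 →
      graphVol c (Fn (Kf j) (4 / r) (j + 1) 0 (Fin.last (q + 1))) S ≤
        (q + 1 + 1).factorial * volume S + ENNReal.ofReal c * CC q := by
    intro j S hS hsub
    refine (graphVol_le hc hr0 hr1 (hKf j) S hS hsub).trans ?_
    rw [mul_add, mul_left_comm]
    unfold CC
    gcongr
    exact le_self_add
  refine ⟨((q + 1 + 1).factorial * volume (polydisk (q + 1 + 1) 1) +
      ENNReal.ofReal c * CC q).toReal + 1,
    fun j => Fn (Kf j) (4 / r) (j + 1) 0 (Fin.last (q + 1)), fun j => Pi.single 0 (w j),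
    by positivity, ?_, ?_, ?_, ?_⟩
  · intro j
    refine ⟨fun x hx => (differentiableAt_Fn _ _ _ _ _ x (hx 0)).differentiableWithinAt, ?_, ?_⟩
    · refine (hbound j _ (measurableSet_shell _ _) sdiff_subset).trans ?_
      exact le_ofReal_of hc _ _ _ (volume_shell_ne_top _ _) (CC_ne_top q) hR1
    · intro z _
      rw [shell_one hr0, graphVol_slice hc, ← volume_pre, ← shell_one hr0]
      have h1 := Ew_annulus r hr0 hr1 (j + 1) (Kf j) (hKf j) (z 0)
      have h2 := le_ofReal_of hc 1 _ _ (volume_shell_ne_top 1 r) (CC_ne_top q)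
        (by simpa using hR2)
      rw [Nat.cast_one, one_mul] at h2
      refine le_trans ?_ h2
      gcongr
      refine h1.trans ?_
      unfold CC
      exact le_add_self
  · intro j
    refine (hbound j _ hpoly Subset.rfl).trans ?_
    have hfin : (q + 1 + 1).factorial * volume (polydisk (q + 1 + 1) 1) +
      ENNReal.ofReal c * CC q ≠ ⊤ :=
      ENNReal.add_ne_top.mpr ⟨ENNReal.mul_ne_top (ENNReal.natCast_ne_top _)
        (volume_polydisk_ne_top _), ENNReal.mul_ne_top ENNReal.ofReal_ne_top (CC_ne_top q)⟩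
    rw [ENNReal.le_ofReal_iff_toReal_le hfin (by positivity)]
    linarith
  · intro j i
    have h1 := mem_ball_zero_iff.mp (hw1 j)
    rcases eq_or_ne i 0 with rfl | hi
    · simpa using h1
    · simp [Pi.single_eq_of_ne hi]
  · have hge : ∀ j : ℕ, ENNReal.ofReal c * (((j + 1 : ℕ) : ℝ≥0∞) * sph (Metric.ball (0:ℂ) 1)) ≤
        graphVol c (slice (m := q + 1) (k := 1) (Fn (Kf j) (4 / r) (j + 1) 0 (Fin.last (q + 1)))
          (Pi.single 0 (w j))) (polydisk 1 1) := by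
      intro j
      rw [polydisk_one, graphVol_slice hc]
      refine le_trans ?_ le_add_self
      gcongr
      have := hw2 j
      simpa using this
    have hlim : Tendsto (fun j : ℕ => ENNReal.ofReal c *
        (((j + 1 : ℕ) : ℝ≥0∞) * sph (Metric.ball (0:ℂ) 1))) atTop (𝓝 ⊤) := by
      have h1 : Tendsto (fun j : ℕ => ((j + 1 : ℕ) : ℝ≥0∞)) atTop (𝓝 ⊤) :=
        ENNReal.tendsto_nat_nhds_top.comp (tendsto_add_atTop_nat 1)
      have h2 : Tendsto (fun j : ℕ => ((j + 1 : ℕ) : ℝ≥0∞) * sph (Metric.ball (0:ℂ) 1)) atTop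
          (𝓝 (⊤ * sph (Metric.ball (0:ℂ) 1))) :=
        ENNReal.Tendsto.mul_const h1 (Or.inl (by norm_num))
      rw [ENNReal.top_mul sph_ball_pos.ne'] at h2
      have h3 := ENNReal.Tendsto.const_mul (a := ENNReal.ofReal c) h2 (Or.inl (by norm_num))
      rwa [ENNReal.mul_top (by simpa using hc)] at h3
    exact tendsto_nhds_top_mono hlim (Eventually.of_forall hge)

end Pool.Agent.Results.MP_c848f8_an.SliceBlowup
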